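import Pool.Agent.Helper83.RelQ.Defs
import Pool.Agent.Helper29.QU.Map

/-!
# T-REL for quadric bundles: Q1 and Q2
-/

set_option autoImplicit false

namespace Pool.Agent.Helper49.RelQ

open Matrix Pool.Agent.Helper49.QU Pool.Agent.Helper83.RelQ Pool.Agent.Helper29.QU

variable {n r : ℕ} {N : Fin r → ℕ}

/-- **Q1.** change of the base ring -/
theorem map_aQR_bQR {A A' : Type} [CommRing A] [CommRing A'] (φ : A →+* A')
    (B : ∀ i : Fin r, Matrix (Fin (N i)) (Fin (N i)) (MvPolynomial (Fin n) A)) (i : Fin r) :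
    MvPolynomial.map φ (aQR N B i) = aQR N (fun i => (B i).map (MvPolynomial.map φ)) i ∧
    MvPolynomial.map φ (bQR N B i) = bQR N (fun i => (B i).map (MvPolynomial.map φ)) i := by
  have h1 : incBR N (fun i => (B i).map (MvPolynomial.map φ)) i =
      (incBR N B i).map (MvPolynomial.map φ) := by
    ext1 j l
    simp only [incBR, Matrix.map_apply, incR]
    exact (MvPolynomial.map_rename φ _ _).symm
  have h2 : gvR n N A' i = fun c j => MvPolynomial.map φ (gvR n N A i c j) := by
    funext c j
    simp only [gvR, MvPolynomial.map_X]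
  unfold aQR bQR
  rw [h1, h2]
  exact ⟨(qa_map _ _ _).symm, (qb_map _ _ _).symm⟩

/-- **Q2.** over a field these are the symbols of T-QUAD -/
theorem aQR_eq {k : Type} [Field k]
    (B : ∀ i : Fin r, Matrix (Fin (N i)) (Fin (N i)) (MvPolynomial (Fin n) k)) (i : Fin r) :
    aQR N B i = aQ N B i ∧ bQR N B i = bQ N B i := ⟨rfl, rfl⟩

end Pool.Agent.Helper49.RelQ
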